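import Pool.Agent.U562.RS.Main

/-!
# MP_ad2fa1_an: negative solutions need not be radially symmetric

Disproof of Q1, for every `N ≥ 0`: there are `p`, `q` such that `f t = e^{2t} p(e^t)` and
`g u = q(e^u)` satisfy all of (H1)-(H8) and the equation `Δu + p(|x|) q(e^u) = 4πN δ` has a negative
solution which is not radially symmetric about the origin. If `N` is a positive integer then `p` is
constant.

With an integer `m ≥ max(N, 1)` (and `m = N` if `N` is a positive integer) the weight is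
`p r = 288 (m+1)² r^{2(m-N)}`, the nonlinearity is `q s = s` for `s ≤ 1/2` and
`q s = (1-s)(8s-3)/(4s²)` for `s ≥ 1/2`, and the solution is
`u(z) = 2N log|z| - 2 log(1 + |z^{m+1} + 1|²) - log 36 ≤ -log 2`, which solves a Liouville equation.

The definitions are in `Pool/Agent/U562/RS/Defs.lean`: `fOf`, `gOf` (the functions `f`, `g`), `G0`,
`M0`, `Hyp f g` (hypotheses (H1)-(H8)), `IsNegSol N p q u` (`u` is a negative distributional
solution) and `IsRad u` (radial symmetry about the origin).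
-/

set_option autoImplicit false

namespace Pool.Agent.Results.MP_ad2fa1_an.NonRadial

open Pool.Agent.U562.RS

/-- For every real `N ≥ 0` there are `p` and `q` satisfying (H1)-(H8), with `p` constant if `N` is a
positive integer, and a negative solution of `Δu + p(|x|) q(e^u) = 4πN δ` on the plane which is not
radially symmetric about the origin. -/
theorem result : ∀ N : ℝ, 0 ≤ N → ∃ p q : ℝ → ℝ, Hyp (fOf p) (gOf q) ∧
    (∃ u : ℂ → ℝ, IsNegSol N p q u ∧ ¬ IsRad u) ∧
    ((∃ k : ℕ, 0 < k ∧ N = k) → ∃ P : ℝ, ∀ r : ℝ, 0 < r → p r = P) := by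
  intro N hN
  by_cases h : ∃ k : ℕ, 0 < k ∧ N = k
  · obtain ⟨k, -, rfl⟩ := h
    refine ⟨pw (288 * (k + 1 : ℝ) ^ 2) ((k : ℝ) - k), q, hyp (by positivity) (by simp),
      ⟨uu k k, isNegSol hN le_rfl, not_rad k k⟩, fun _ => ⟨288 * (k + 1 : ℝ) ^ 2, fun r _ => ?_⟩⟩
    simp [pw]
  · have hm : N ≤ ((⌊N⌋₊ + 1 : ℕ) : ℝ) := by
      push_cast
      exact (Nat.lt_floor_add_one N).le
    exact ⟨pw (288 * (((⌊N⌋₊ + 1 : ℕ) : ℝ) + 1) ^ 2) (((⌊N⌋₊ + 1 : ℕ) : ℝ) - N), q,
      hyp (by positivity) (by linarith), ⟨uu N (⌊N⌋₊ + 1), isNegSol hN hm, not_rad N _⟩,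
      fun h' => absurd h' h⟩

end Pool.Agent.Results.MP_ad2fa1_an.NonRadial
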